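import Pool.Agent.helper63.Dg4.Spec

/-!
# Project dg4, row EXT: extending a condition by a finite piece of a function satisfying it
-/

namespace Pool.Agent.helper63.Dg4

open Encodable Pool.Agent.helper63.Diag

/-- the two points compared at the position `i` when the entry is `y` -/
def extBad (fl : ℕ → ℕ) (a b : ℕ) (ρ : List ℕ) : Prop :=
  (a < ρ.length ∧ b < ρ.length) ∧ ¬ ρ.getD a 0 = fl (ρ.getD b 0)

theorem s1_extBad {fl : ℕ → ℕ} (hfl : Primrec fl) (a b : ℕ) : CE (extBad fl a b) := by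
  unfold extBad
  refine S1.prim (PrimrecPred.and (PrimrecPred.and ?_ ?_) (PrimrecPred.not ?_))
  · exact Primrec.nat_lt.comp (Primrec.const a) Primrec.list_length
  · exact Primrec.nat_lt.comp (Primrec.const b) Primrec.list_length
  · exact Primrec.eq.comp ((Primrec.list_getD 0).comp Primrec.id (Primrec.const a))
      (hfl.comp ((Primrec.list_getD 0).comp Primrec.id (Primrec.const b)))

theorem s1_const_and {α : Type} [Primcodable α] {X : ℕ → ℕ} (c : Prop) {A : α → Prop}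
    (h : S1 X A) : S1 X (fun a => c ∧ A a) := by
  by_cases hc : c
  · exact h.of_iff (fun a => by simp [hc])
  · refine (S1.orlt (X := X) (A := fun _ : ℕ => A) 0 (fun i hi => absurd hi (by omega))).of_iff
      (fun a => ?_)
    simp [hc]

/-- incompatibility with the entries `g i`, `s ≤ i < K` -/
def extInc (p : Cond) (g : ℕ → ℕ) (K : ℕ) (ρ : List ℕ) : Prop :=
  ∃ i < K, (p.σ.length ≤ i ∧ p.ab.getD (col i) 0 = 2 ∧ g i ≠ 0) ∧
    extBad p.fl (Nat.pair (col i) (g i - 1)) (Nat.pair (col i) (el i)) ρ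

theorem s1_extInc (p : Cond) (g : ℕ → ℕ) (K : ℕ) : CE (extInc p g K) :=
  S1.orlt K (fun _ _ => s1_const_and _ (s1_extBad p.hfl _ _))

theorem mem_extInc_iff {p : Cond} {g : ℕ → ℕ} {K : ℕ} {v : ℕ → ℕ} :
    v ∈ cls p.n (fun ρ => p.Bad ρ ∨ extInc p g K ρ) ↔ v ∈ cls p.n p.Bad ∧
      ∀ i, p.σ.length ≤ i → i < K → p.ab.getD (col i) 0 = 2 →
        g i = 0 ∨ v (Nat.pair (col i) (g i - 1)) = p.fl (v (Nat.pair (col i) (el i))) := by
  constructor
  · rintro ⟨h1, h2⟩
    refine ⟨⟨h1, fun k hk => h2 k (Or.inl hk)⟩, ?_⟩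
    intro i hi1 hi2 hi3
    by_contra hcon
    push Not at hcon
    obtain ⟨hc1, hc2⟩ := hcon
    have ha : Nat.pair (col i) (g i - 1) <
        Nat.pair (col i) (g i - 1) + Nat.pair (col i) (el i) + 1 := by omega
    have hb : Nat.pair (col i) (el i) <
        Nat.pair (col i) (g i - 1) + Nat.pair (col i) (el i) + 1 := by omega
    refine h2 (Nat.pair (col i) (g i - 1) + Nat.pair (col i) (el i) + 1)
      (Or.inr ⟨i, hi2, ⟨hi1, hi3, hc1⟩, ⟨by rw [res_length]; exact ha,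
        by rw [res_length]; exact hb⟩, ?_⟩)
    rw [res_getD v ha, res_getD v hb]
    exact hc2
  · rintro ⟨⟨h1, h2⟩, h3⟩
    refine ⟨h1, fun k hk => ?_⟩
    rcases hk with hk | ⟨i, hi, ⟨hi1, hi2, hi3⟩, ⟨ha, hb⟩, hne⟩
    · exact h2 k hk
    · rw [res_length] at ha hb
      rw [res_getD v ha, res_getD v hb] at hne
      rcases h3 i hi1 hi hi2 with h | h
      · exact hi3 h
      · exact hne h

/-- **EXT** -/
theorem EXT : EXT_stmt := by
  intro p g K hg hK
  obtain ⟨hg1, v, hv, hv2⟩ := hg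
  have hmem : v ∈ cls p.n (fun ρ => p.Bad ρ ∨ extInc p g K ρ) :=
    mem_extInc_iff.2 ⟨hv, fun i hi _ hi3 => (hv2 i hi).2 hi3⟩
  let q : Cond :=
    { ab := p.ab
      ce := p.ce
      σ := res g K
      n := p.n
      fl := p.fl
      Y := p.Y
      z0 := p.z0
      Bad := fun ρ => p.Bad ρ ∨ extInc p g K ρ
      re := p.re.or (s1_extInc p g K)
      hfl := p.hfl
      inv := fun v hv => p.inv v (mem_extInc_iff.1 hv).1
      fl_ne := fun v hv => p.fl_ne v (mem_extInc_iff.1 hv).1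
      yc := fun v hv => p.yc v (mem_extInc_iff.1 hv).1
      zz := fun v hv => p.zz v (mem_extInc_iff.1 hv).1
      ne := ⟨v, hmem⟩ }
  have hqσ : q.σ = res g K := rfl
  have hlen : q.σ.length = K := by rw [hqσ, res_length]
  refine ⟨q, ⟨fun κ _ => ⟨rfl, rfl⟩, ?_, ?_⟩, fun κ h => ⟨h, rfl⟩, rfl, ?_, rfl, rfl⟩
  · rw [hqσ, res_take g hK, hg1]
  · rintro g' ⟨h1, w, hw, hw2⟩
    rw [hlen] at h1
    have h1' : res g' K = res g K := h1
    have hag : ∀ i < K, g' i = g i := res_inj h1'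
    obtain ⟨hw3, hw4⟩ := mem_extInc_iff.1 (show w ∈ cls p.n (fun ρ => p.Bad ρ ∨ extInc p g K ρ)
      from hw)
    refine ⟨?_, w, hw3, fun i hi => ?_⟩
    · rw [← res_take g' hK, h1', res_take g hK, hg1]
    · by_cases hiK : i < K
      · rw [hag i hiK]
        exact ⟨(hv2 i hi).1, fun h => hw4 i hi hiK h⟩
      · exact hw2 i (by rw [hlen]; omega)
  · refine ⟨by rw [hlen], v, hmem, fun i hi => ?_⟩
    exact hv2 i (by rw [hlen] at hi; omega)

end Pool.Agent.helper63.Dg4
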